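import Pool.Agent.H.MP_52d9f3_co.B

namespace Pool.Agent.Results.MP_52d9f3_co.Neg

/-- `p` contains the uniform distant pattern `dist_r(q)`. -/
def Contains {m n : ℕ} (r : ℕ) (q : Equiv.Perm (Fin m)) (p : Equiv.Perm (Fin n)) : Prop :=
  ∃ f : Fin m → Fin n, (∀ a b : Fin m, (a : ℕ) + 1 = b → (f a : ℕ) + r + 1 ≤ f b) ∧
    ∀ a b, p (f a) < p (f b) ↔ q a < q b

theorem result : ∃ (m r : ℕ) (q : Equiv.Perm (Fin m)), 3 ≤ m ∧ 1 ≤ r ∧ ∀ n₀ : ℕ, ∃ n, n₀ < n ∧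
    Nat.card {p : Equiv.Perm (Fin n) // ¬ Contains r (1 : Equiv.Perm (Fin m)) p} <
      Nat.card {p : Equiv.Perm (Fin n) // ¬ Contains r q p} := by
  classical
  obtain ⟨m, q, hm, h⟩ := Pool.Agent.H.MP_52d9f3_co.main
  refine ⟨m, 1, q, hm, le_rfl, fun n₀ => ?_⟩
  obtain ⟨n, hn, h⟩ := h n₀
  refine ⟨n, hn, ?_⟩
  rw [Nat.card_eq_fintype_card, Nat.card_eq_fintype_card, Fintype.card_subtype,
    Fintype.card_subtype]
  convert h using 3 <;> rfl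

end Pool.Agent.Results.MP_52d9f3_co.Neg
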